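import Mathlib

set_option autoImplicit false

/-!
# Site disorder chaos on hypergraphs: the model
-/

namespace Pool.Agent.Q216.HG

open MeasureTheory ProbabilityTheory
open scoped ENNReal

/-- spin configurations on `N` sites -/
abbrev Cfg (N : ℕ) : Type := Fin N → ℤˣ

/-- the spin of a site as a real number -/
def sp {N : ℕ} (i : Fin N) (σ : Cfg N) : ℝ := ((σ i : ℤ) : ℝ)

/-- `σ_e = ∏_{i ∈ e} σ_i` -/
def es {N : ℕ} (e : Finset (Fin N)) (σ : Cfg N) : ℝ := ∏ i ∈ e, sp i σ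

/-- the Hamiltonian `H_J(σ) = Σ_{e ∈ E} ρ(J_e) σ_e` -/
noncomputable def Ham {N : ℕ} (E : Finset (Finset (Fin N))) (ρ : ℝ → ℝ) (J : E → ℝ) (σ : Cfg N) : ℝ :=
  ∑ e : E, ρ (J e) * es e.1 σ

open Classical in
/-- unnormalised Gibbs weight; for `β = ∞` the indicator of the maximisers of `H` -/
noncomputable def gw {N : ℕ} (β : ℝ≥0∞) (H : Cfg N → ℝ) (σ : Cfg N) : ℝ :=
  if β = ⊤ then (if ∀ τ, H τ ≤ H σ then 1 else 0) else Real.exp (β.toReal * H σ)

/-- Gibbs average of `g` -/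
noncomputable def gib {N : ℕ} (β : ℝ≥0∞) (H : Cfg N → ℝ) (g : Cfg N → ℝ) : ℝ :=
  (∑ σ, gw β H σ * g σ) / ∑ σ, gw β H σ

/-- the overlap `R(σ,τ) = N⁻¹ Σ σ_i τ_i` -/
noncomputable def ovl {N : ℕ} (σ τ : Cfg N) : ℝ := (∑ i, sp i σ * sp i τ) / N

/-- the law of a triple `(J_e, J'_e, B_e)` : independent, standard Gaussian, standard Gaussian,
Bernoulli with success probability `e^{-t}` -/
noncomputable def law1 (t : ℝ) : Measure (ℝ × ℝ × Bool) :=
  (gaussianReal 0 1).prod ((gaussianReal 0 1).prod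
    (ENNReal.ofReal (Real.exp (-t)) • Measure.dirac true +
      ENNReal.ofReal (1 - Real.exp (-t)) • Measure.dirac false))

/-- continuous perturbation of one coupling -/
noncomputable def pc (t : ℝ) (w : ℝ × ℝ × Bool) : ℝ :=
  Real.exp (-t) * w.1 + Real.sqrt (1 - Real.exp (-2 * t)) * w.2.1

/-- discrete perturbation of one coupling -/
noncomputable def pd (w : ℝ × ℝ × Bool) : ℝ := if w.2.2 then w.1 else w.2.1

/-- `E ⟨R(σ,τ)²⟩_t` : the triples `(J_e, J'_e, B_e)`, `e ∈ E`, are i.i.d. with law `law1 t`,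
`σ` is a Gibbs sample for `J` and `τ` an independent Gibbs sample for the perturbed couplings -/
noncomputable def ER2 {N : ℕ} (E : Finset (Finset (Fin N))) (ρ : ℝ → ℝ) (β : ℝ≥0∞) (t : ℝ)
    (P : ℝ × ℝ × Bool → ℝ) : ℝ :=
  ∫ ω : E → ℝ × ℝ × Bool,
    gib β (Ham E ρ (fun e => (ω e).1)) (fun σ =>
      gib β (Ham E ρ (fun e => P (ω e))) (fun τ => ovl σ τ ^ 2))
    ∂(Measure.pi (fun _ : E => law1 t))

/-! ### Gibbs averages -/

lemma sp_sq {N : ℕ} (i : Fin N) (σ : Cfg N) : sp i σ * sp i σ = 1 := by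
  unfold sp
  rcases Int.units_eq_one_or (σ i) with h | h <;> rw [h] <;> norm_num

lemma es_sq {N : ℕ} (e : Finset (Fin N)) (σ : Cfg N) : es e σ * es e σ = 1 := by
  unfold es
  rw [← Finset.prod_mul_distrib]
  exact Finset.prod_eq_one (fun i _ => sp_sq i σ)

lemma abs_sp {N : ℕ} (i : Fin N) (σ : Cfg N) : |sp i σ| = 1 := by
  unfold sp
  rcases Int.units_eq_one_or (σ i) with h | h <;> rw [h] <;> norm_num

lemma gw_nonneg {N : ℕ} (β : ℝ≥0∞) (H : Cfg N → ℝ) (σ : Cfg N) : 0 ≤ gw β H σ := by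
  unfold gw
  split_ifs
  · norm_num
  · norm_num
  · positivity

lemma gw_sum_pos {N : ℕ} (β : ℝ≥0∞) (H : Cfg N → ℝ) : 0 < ∑ σ, gw β H σ := by
  obtain ⟨σ0, -, h0⟩ := Finset.exists_max_image (Finset.univ : Finset (Cfg N)) H Finset.univ_nonempty
  refine Finset.sum_pos' (fun σ _ => gw_nonneg β H σ) ⟨σ0, Finset.mem_univ _, ?_⟩
  unfold gw
  split_ifs with h1 h2
  · norm_num
  · exact absurd (fun τ => h0 τ (Finset.mem_univ _)) h2
  · positivity

lemma gib_add {N : ℕ} (β : ℝ≥0∞) (H : Cfg N → ℝ) (f g : Cfg N → ℝ) :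
    gib β H (fun σ => f σ + g σ) = gib β H f + gib β H g := by
  unfold gib
  rw [← add_div, ← Finset.sum_add_distrib]
  congr 1
  exact Finset.sum_congr rfl (fun σ _ => by ring)

lemma gib_smul {N : ℕ} (β : ℝ≥0∞) (H : Cfg N → ℝ) (c : ℝ) (f : Cfg N → ℝ) :
    gib β H (fun σ => c * f σ) = c * gib β H f := by
  unfold gib
  rw [← mul_div_assoc, Finset.mul_sum]
  congr 1
  exact Finset.sum_congr rfl (fun σ _ => by ring)

lemma gib_smul' {N : ℕ} (β : ℝ≥0∞) (H : Cfg N → ℝ) (c : ℝ) (f : Cfg N → ℝ) :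
    gib β H (fun σ => f σ * c) = gib β H f * c := by
  rw [mul_comm, ← gib_smul]
  congr 1
  funext σ; ring

lemma gib_const {N : ℕ} (β : ℝ≥0∞) (H : Cfg N → ℝ) (c : ℝ) : gib β H (fun _ => c) = c := by
  unfold gib
  rw [← Finset.sum_mul]
  field_simp [(gw_sum_pos β H).ne']

lemma gib_sum {N : ℕ} (β : ℝ≥0∞) (H : Cfg N → ℝ) {ι : Type*} (s : Finset ι) (f : ι → Cfg N → ℝ) :
    gib β H (fun σ => ∑ i ∈ s, f i σ) = ∑ i ∈ s, gib β H (f i) := by
  unfold gib
  rw [← Finset.sum_div]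
  congr 1
  rw [Finset.sum_comm]
  exact Finset.sum_congr rfl (fun σ _ => by rw [Finset.mul_sum])

lemma gib_mono {N : ℕ} (β : ℝ≥0∞) (H : Cfg N → ℝ) {f g : Cfg N → ℝ} (h : ∀ σ, f σ ≤ g σ) :
    gib β H f ≤ gib β H g := by
  unfold gib
  refine div_le_div_of_nonneg_right ?_ (gw_sum_pos β H).le
  exact Finset.sum_le_sum (fun σ _ => mul_le_mul_of_nonneg_left (h σ) (gw_nonneg β H σ))

lemma gib_abs_le {N : ℕ} (β : ℝ≥0∞) (H : Cfg N → ℝ) {f : Cfg N → ℝ} {C : ℝ} (h : ∀ σ, |f σ| ≤ C) :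
    |gib β H f| ≤ C := by
  rw [abs_le]
  constructor
  · have := gib_mono β H (f := fun _ => -C) (g := f) (fun σ => (abs_le.1 (h σ)).1)
    rwa [gib_const] at this
  · have := gib_mono β H (f := f) (g := fun _ => C) (fun σ => (abs_le.1 (h σ)).2)
    rwa [gib_const] at this

/-- an odd function under a symmetry of `H` has zero average -/
lemma gib_odd {N : ℕ} (β : ℝ≥0∞) (H : Cfg N → ℝ) (F : Cfg N → Cfg N) (hF : Function.Involutive F)
    (hH : ∀ σ, H (F σ) = H σ) {g : Cfg N → ℝ} (hg : ∀ σ, g (F σ) = - g σ) : gib β H g = 0 := by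
  have hw : ∀ σ, gw β H (F σ) = gw β H σ := by
    intro σ
    unfold gw
    rw [hH]
  have h1 : ∑ σ, gw β H σ * g σ = ∑ σ, gw β H (F σ) * g (F σ) :=
    (Equiv.sum_comp (Function.Involutive.toPerm F hF) (fun σ => gw β H σ * g σ)).symm
  have h2 : ∑ σ, gw β H σ * g σ = - ∑ σ, gw β H σ * g σ := by
    conv_lhs => rw [h1]
    rw [← Finset.sum_neg_distrib]
    exact Finset.sum_congr rfl (fun σ _ => by rw [hw, hg]; ring)
  unfold gib
  have h3 : ∑ σ, gw β H σ * g σ = 0 := by linarith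
  rw [h3, zero_div]

/-- magnetisation of one coupling -/
noncomputable def fm (ρ : ℝ → ℝ) (β : ℝ≥0∞) (x : ℝ) : ℝ :=
  if β = ⊤ then (SignType.sign (ρ x) : ℝ) else Real.tanh (β.toReal * ρ x)

/-- integrating out one coupling: `H = r χ + H'` -/
lemma gib_extract {N : ℕ} (ρ : ℝ → ℝ) (β : ℝ≥0∞) (x : ℝ) (H H' χ : Cfg N → ℝ)
    (F : Cfg N → Cfg N) (hF : Function.Involutive F)
    (hH : ∀ σ, H σ = ρ x * χ σ + H' σ) (hχ2 : ∀ σ, χ σ * χ σ = 1) (hχ : ∀ σ, χ (F σ) = - χ σ)
    (hH' : ∀ σ, H' (F σ) = H' σ) {g : Cfg N → ℝ} (hg : ∀ σ, g (F σ) = g σ) :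
    gib β H (fun σ => χ σ * g σ) = fm ρ β x * gib β H g := by
  have hχ1 : ∀ σ, χ σ = 1 ∨ χ σ = -1 := by
    intro σ
    have := hχ2 σ
    exact mul_self_eq_one_iff.1 this
  suffices h : ∑ σ, gw β H σ * (χ σ * g σ) = fm ρ β x * ∑ σ, gw β H σ * g σ by
    unfold gib
    rw [h, mul_div_assoc]
  by_cases hβ : β = ⊤
  · unfold fm
    rw [if_pos hβ]
    -- weights
    have hgw : ∀ σ, gw β H σ = if ∀ τ, H τ ≤ H σ then 1 else 0 := by
      intro σ; unfold gw; rw [if_pos hβ]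
    rcases lt_trichotomy (ρ x) 0 with h | h | h
    · rw [sign_neg h, Finset.mul_sum]
      refine Finset.sum_congr rfl (fun σ _ => ?_)
      rw [hgw σ]
      by_cases hm : ∀ τ, H τ ≤ H σ
      · have hσ : χ σ = -1 := by
          rcases hχ1 σ with h1 | h1
          · exfalso
            have h2 := hm (F σ)
            rw [hH, hH σ, hH', hχ, h1] at h2
            linarith
          · exact h1
        rw [if_pos hm, hσ]; simp
      · rw [if_neg hm]; simp
    · rw [h, sign_zero]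
      simp only [SignType.coe_zero, zero_mul]
      have hHF : ∀ σ, H (F σ) = H σ := by
        intro σ; rw [hH, hH σ, hH', h]; ring
      have h0 := gib_odd β H F hF hHF (g := fun σ => χ σ * g σ) (fun σ => by rw [hχ, hg]; ring)
      unfold gib at h0
      rcases div_eq_zero_iff.1 h0 with h1 | h1
      · exact h1
      · exact absurd h1 (gw_sum_pos β H).ne'
    · rw [sign_pos h, Finset.mul_sum]
      refine Finset.sum_congr rfl (fun σ _ => ?_)
      rw [hgw σ]
      by_cases hm : ∀ τ, H τ ≤ H σ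
      · have hσ : χ σ = 1 := by
          rcases hχ1 σ with h1 | h1
          · exact h1
          · exfalso
            have h2 := hm (F σ)
            rw [hH, hH σ, hH', hχ, h1] at h2
            linarith
        rw [if_pos hm, hσ]; simp
      · rw [if_neg hm]; simp
  · unfold fm
    rw [if_neg hβ]
    set b : ℝ := β.toReal with hb
    have hgw : ∀ σ, gw β H σ = Real.exp (b * H' σ) * (Real.cosh (b * ρ x) + χ σ * Real.sinh (b * ρ x)) := by
      intro σ
      unfold gw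
      rw [if_neg hβ, hH, ← hb, mul_add, Real.exp_add, mul_comm (Real.exp _)]
      congr 1
      rcases hχ1 σ with h1 | h1
      · rw [h1, mul_one, one_mul, Real.cosh_add_sinh]
      · rw [h1]
        have : b * (ρ x * -1) = -(b * ρ x) := by ring
        rw [this, ← Real.cosh_sub_sinh]; ring
    -- odd part vanishes
    have hodd : ∑ σ, Real.exp (b * H' σ) * (χ σ * g σ) = 0 := by
      have h1 : ∑ σ, Real.exp (b * H' σ) * (χ σ * g σ) =
          ∑ σ, Real.exp (b * H' (F σ)) * (χ (F σ) * g (F σ)) :=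
        (Equiv.sum_comp (Function.Involutive.toPerm F hF)
          (fun σ => Real.exp (b * H' σ) * (χ σ * g σ))).symm
      have h2 : ∑ σ, Real.exp (b * H' σ) * (χ σ * g σ) = - ∑ σ, Real.exp (b * H' σ) * (χ σ * g σ) := by
        conv_lhs => rw [h1]
        rw [← Finset.sum_neg_distrib]
        exact Finset.sum_congr rfl (fun σ _ => by rw [hH', hχ, hg]; ring)
      linarith
    have e1 : ∑ σ, gw β H σ * (χ σ * g σ) = Real.sinh (b * ρ x) * ∑ σ, Real.exp (b * H' σ) * g σ := by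
      have : ∀ σ, gw β H σ * (χ σ * g σ) = Real.cosh (b * ρ x) * (Real.exp (b * H' σ) * (χ σ * g σ)) +
          Real.sinh (b * ρ x) * (Real.exp (b * H' σ) * g σ) := by
        intro σ
        rw [hgw]
        have := hχ2 σ
        linear_combination (Real.exp (b * H' σ) * Real.sinh (b * ρ x) * g σ) * this
      rw [Finset.sum_congr rfl (fun σ _ => this σ), Finset.sum_add_distrib, ← Finset.mul_sum,
        ← Finset.mul_sum, hodd, mul_zero, zero_add]
    have e2 : ∑ σ, gw β H σ * g σ = Real.cosh (b * ρ x) * ∑ σ, Real.exp (b * H' σ) * g σ := by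
      have : ∀ σ, gw β H σ * g σ = Real.cosh (b * ρ x) * (Real.exp (b * H' σ) * g σ) +
          Real.sinh (b * ρ x) * (Real.exp (b * H' σ) * (χ σ * g σ)) := by
        intro σ
        rw [hgw]; ring
      rw [Finset.sum_congr rfl (fun σ _ => this σ), Finset.sum_add_distrib, ← Finset.mul_sum,
        ← Finset.mul_sum, hodd, mul_zero, add_zero]
    rw [e1, e2, Real.tanh_eq_sinh_div_cosh, ← mul_assoc,
      div_mul_cancel₀ _ (Real.cosh_pos _).ne']

end Pool.Agent.Q216.HG
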