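import Pool.Agent.Q216.HG.Defs

set_option autoImplicit false

/-!
# The hypergraph
-/

namespace Pool.Agent.Q216.HG

open MeasureTheory ProbabilityTheory
open scoped ENNReal

/-- the triple `{a,b,c}` inside `Fin N` -/
def tri (N a b c : ℕ) : Finset (Fin N) :=
  Finset.univ.filter (fun i => i.val = a ∨ i.val = b ∨ i.val = c)

lemma tri_eq {N a b c : ℕ} (ha : a < N) (hb : b < N) (hc : c < N) :
    tri N a b c = {⟨a, ha⟩, ⟨b, hb⟩, ⟨c, hc⟩} := by
  ext i
  simp only [tri, Finset.mem_filter, Finset.mem_univ, true_and, Finset.mem_insert,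
    Finset.mem_singleton, Fin.ext_iff]

lemma tri_card {N a b c : ℕ} (ha : a < b) (hb : b < c) (hc : c < N) : (tri N a b c).card = 3 := by
  rw [tri_eq (by omega) (by omega) hc, Finset.card_eq_three]
  refine ⟨_, _, _, ?_, ?_, ?_, rfl⟩ <;> simp only [ne_eq, Fin.mk.injEq] <;> omega

lemma mem_tri {N a b c : ℕ} (i : Fin N) : i ∈ tri N a b c ↔ (i.val = a ∨ i.val = b ∨ i.val = c) := by
  simp [tri]

lemma es_tri {N a b c : ℕ} (hab : a < b) (hbc : b < c) (hc : c < N) (σ : Cfg N) :
    es (tri N a b c) σ = sp ⟨a, by omega⟩ σ * sp ⟨b, by omega⟩ σ * sp ⟨c, hc⟩ σ := by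
  unfold es
  rw [tri_eq (by omega) (by omega) hc, Finset.prod_insert, Finset.prod_insert, Finset.prod_singleton,
    mul_assoc]
  · simp only [Finset.mem_singleton, Fin.mk.injEq]; omega
  · simp only [Finset.mem_insert, Finset.mem_singleton, Fin.mk.injEq]; omega

/-- the edges -/
def IsE (N : ℕ) (e : Finset (Fin N)) : Prop :=
  ∃ k : ℕ, 4 * k + 3 < N ∧ (e = tri N (4 * k) (4 * k + 1) (4 * k + 2) ∨
    e = tri N (4 * k) (4 * k + 1) (4 * k + 3) ∨ e = tri N (4 * k) (4 * k + 2) (4 * k + 3) ∨
    ∃ v : ℕ, v < N ∧ 4 * k + 4 ≤ v ∧ (v = 4 * k + 5 ∨ N ≤ 4 * k + 7) ∧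
      e = tri N (4 * k) (4 * k + 1) v)

open Classical in
/-- the edge set of `G_N` -/
noncomputable def EN (N : ℕ) : Finset (Finset (Fin N)) := Finset.univ.filter (IsE N)

lemma mem_EN {N : ℕ} (e : Finset (Fin N)) : e ∈ EN N ↔ IsE N e := by
  simp [EN]

lemma EN_card {N : ℕ} (e : Finset (Fin N)) (he : e ∈ EN N) : e.card = 3 := by
  rw [mem_EN] at he
  obtain ⟨k, hk, h⟩ := he
  rcases h with rfl | rfl | rfl | ⟨v, hv, hv2, -, rfl⟩
  · exact tri_card (by omega) (by omega) (by omega)
  · exact tri_card (by omega) (by omega) (by omega)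
  · exact tri_card (by omega) (by omega) (by omega)
  · exact tri_card (by omega) (by omega) (by omega)

/-- flip the spins in `T` -/
def flp {N : ℕ} (T : ℕ → Prop) [DecidablePred T] (σ : Cfg N) : Cfg N :=
  fun i => if T i.val then - σ i else σ i

lemma flp_inv {N : ℕ} (T : ℕ → Prop) [DecidablePred T] : Function.Involutive (flp (N := N) T) := by
  intro σ
  funext i
  unfold flp
  by_cases h : T i.val
  · simp [h]
  · simp [h]

lemma sp_flp {N : ℕ} (T : ℕ → Prop) [DecidablePred T] (i : Fin N) (σ : Cfg N) :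
    sp i (flp T σ) = (if T i.val then -1 else 1) * sp i σ := by
  unfold sp flp
  by_cases h : T i.val
  · simp [h]
  · simp [h]

/-- vertices of `B` type -/
def BT (N i : ℕ) : Prop := ¬ (i % 4 = 0 ∧ i + 3 < N)

instance (N : ℕ) : DecidablePred (BT N) := fun i => by unfold BT; infer_instance

/-- flipping all `B` vertices preserves all edges -/
lemma es_flp_BT {N : ℕ} (e : Finset (Fin N)) (he : e ∈ EN N) (σ : Cfg N) :
    es e (flp (BT N) σ) = es e σ := by
  rw [mem_EN] at he
  obtain ⟨k, hk, h⟩ := he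
  rcases h with rfl | rfl | rfl | ⟨v, hv, hv2, hv3, rfl⟩
  · rw [es_tri (by omega) (by omega) (by omega), es_tri (by omega) (by omega) (by omega), sp_flp,
      sp_flp, sp_flp, if_neg (by unfold BT; push Not; simp only; omega),
      if_pos (by unfold BT; simp only; omega), if_pos (by unfold BT; simp only; omega)]
    ring
  · rw [es_tri (by omega) (by omega) (by omega), es_tri (by omega) (by omega) (by omega), sp_flp,
      sp_flp, sp_flp, if_neg (by unfold BT; push Not; simp only; omega),
      if_pos (by unfold BT; simp only; omega), if_pos (by unfold BT; simp only; omega)]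
    ring
  · rw [es_tri (by omega) (by omega) (by omega), es_tri (by omega) (by omega) (by omega), sp_flp,
      sp_flp, sp_flp, if_neg (by unfold BT; push Not; simp only; omega),
      if_pos (by unfold BT; simp only; omega), if_pos (by unfold BT; simp only; omega)]
    ring
  · rw [es_tri (by omega) (by omega) hv, es_tri (by omega) (by omega) hv, sp_flp,
      sp_flp, sp_flp, if_neg (by unfold BT; push Not; simp only; omega),
      if_pos (by unfold BT; simp only; omega), if_pos (by unfold BT; simp only; omega)]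
    ring

/-- the flipping set of gadget `k` with offsets given by `S` -/
def TS (N k : ℕ) (c d : Bool) (i : ℕ) : Prop :=
  i = 4 * k ∨ (c = true ∧ i = 4 * k + 2) ∨ (d = true ∧ i = 4 * k + 3) ∨ (4 * k + 4 ≤ i ∧ BT N i)

instance (N k : ℕ) (c d : Bool) : DecidablePred (TS N k c d) := fun i => by
  unfold TS; infer_instance

lemma tri_inj {N a b c a' b' c' : ℕ} (hab : a < b) (hbc : b < c) (hc : c < N)
    (hab' : a' < b') (hbc' : b' < c') (hc' : c' < N) :
    tri N a b c = tri N a' b' c' ↔ a = a' ∧ b = b' ∧ c = c' := by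
  constructor
  · intro h
    have h1 : (⟨a, by omega⟩ : Fin N) ∈ tri N a' b' c' := by rw [← h, mem_tri]; simp
    have h2 : (⟨b, by omega⟩ : Fin N) ∈ tri N a' b' c' := by rw [← h, mem_tri]; simp
    have h3 : (⟨c, by omega⟩ : Fin N) ∈ tri N a' b' c' := by rw [← h, mem_tri]; simp
    rw [mem_tri] at h1 h2 h3
    simp only at h1 h2 h3
    omega
  · rintro ⟨rfl, rfl, rfl⟩; rfl

lemma es_flp_tri {N a b c : ℕ} (T : ℕ → Prop) [DecidablePred T] (hab : a < b) (hbc : b < c)
    (hc : c < N) (σ : Cfg N) :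
    es (tri N a b c) (flp T σ) = ((if T a then -1 else 1) * (if T b then -1 else 1) *
      (if T c then -1 else 1)) * es (tri N a b c) σ := by
  rw [es_tri hab hbc hc, es_tri hab hbc hc, sp_flp, sp_flp, sp_flp]
  ring

/-- effect of the flip on every edge -/
lemma es_flp_TS {N : ℕ} (k : ℕ) (hk : 4 * k + 3 < N) (c d : Bool) (e : Finset (Fin N))
    (he : e ∈ EN N) (σ : Cfg N) :
    es e (flp (TS N k c d) σ) =
      (if e = tri N (4 * k) (4 * k + 1) (4 * k + 2) then (if c = true then 1 else -1)
       else if e = tri N (4 * k) (4 * k + 1) (4 * k + 3) then (if d = true then 1 else -1)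
       else if e = tri N (4 * k) (4 * k + 2) (4 * k + 3) then (if c = d then -1 else 1)
       else 1) * es e σ := by
  rw [mem_EN] at he
  obtain ⟨j, hj, h⟩ := he
  have i0 : TS N k c d (4 * k) := Or.inl rfl
  have i1 : ¬ TS N k c d (4 * k + 1) := by unfold TS; omega
  have i2 : TS N k c d (4 * k + 2) ↔ c = true := by
    unfold TS
    constructor
    · intro h; rcases h with h | h | h | h
      · omega
      · exact h.1
      · omega
      · omega
    · intro h; exact Or.inr (Or.inl ⟨h, rfl⟩)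
  have i3 : TS N k c d (4 * k + 3) ↔ d = true := by
    unfold TS
    constructor
    · intro h; rcases h with h | h | h | h
      · omega
      · omega
      · exact h.1
      · omega
    · intro h; exact Or.inr (Or.inr (Or.inl ⟨h, rfl⟩))
  have ilow : ∀ i, i < 4 * k → ¬ TS N k c d i := by
    intro i hi; unfold TS; omega
  have ihigh : ∀ i, 4 * k + 4 ≤ i → (TS N k c d i ↔ BT N i) := by
    intro i hi
    unfold TS
    constructor
    · intro h; rcases h with h | h | h | h
      · omega
      · omega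
      · omega
      · exact h.2
    · intro h; exact Or.inr (Or.inr (Or.inr ⟨hi, h⟩))
  have hA : ¬ BT N (4 * j) := by unfold BT; push Not; omega
  have hB1 : BT N (4 * j + 1) := by unfold BT; omega
  have hB2 : BT N (4 * j + 2) := by unfold BT; omega
  have hB3 : BT N (4 * j + 3) := by unfold BT; omega
  rcases lt_trichotomy j k with hjk | hjk | hjk
  · -- low gadgets
    rcases h with rfl | rfl | rfl | ⟨v, hv, hv2, hv3, rfl⟩
    · rw [es_flp_tri _ (by omega) (by omega) (by omega), if_neg (ilow _ (by omega)),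
        if_neg (ilow _ (by omega)), if_neg (ilow _ (by omega)),
        if_neg (by rw [tri_inj] <;> omega), if_neg (by rw [tri_inj] <;> omega),
        if_neg (by rw [tri_inj] <;> omega)]
      ring
    · rw [es_flp_tri _ (by omega) (by omega) (by omega), if_neg (ilow _ (by omega)),
        if_neg (ilow _ (by omega)), if_neg (ilow _ (by omega)),
        if_neg (by rw [tri_inj] <;> omega), if_neg (by rw [tri_inj] <;> omega),
        if_neg (by rw [tri_inj] <;> omega)]
      ring
    · rw [es_flp_tri _ (by omega) (by omega) (by omega), if_neg (ilow _ (by omega)),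
        if_neg (ilow _ (by omega)), if_neg (ilow _ (by omega)),
        if_neg (by rw [tri_inj] <;> omega), if_neg (by rw [tri_inj] <;> omega),
        if_neg (by rw [tri_inj] <;> omega)]
      ring
    · have hv' : ¬ TS N k c d v := by
        have : v = 4 * j + 5 := by omega
        unfold TS; omega
      rw [es_flp_tri _ (by omega) (by omega) (by omega), if_neg (ilow _ (by omega)),
        if_neg (ilow _ (by omega)), if_neg hv',
        if_neg (by rw [tri_inj] <;> omega), if_neg (by rw [tri_inj] <;> omega),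
        if_neg (by rw [tri_inj] <;> omega)]
      ring
  · subst hjk
    rcases h with rfl | rfl | rfl | ⟨v, hv, hv2, hv3, rfl⟩
    · rw [es_flp_tri _ (by omega) (by omega) (by omega), if_pos i0, if_neg i1, if_pos rfl]
      simp only [i2]
      cases c <;> simp
    · have n1 : ¬ (tri N (4 * j) (4 * j + 1) (4 * j + 3) = tri N (4 * j) (4 * j + 1) (4 * j + 2)) := by
        rw [tri_inj] <;> omega
      rw [es_flp_tri _ (by omega) (by omega) (by omega), if_pos i0, if_neg i1]
      simp only [i3, n1, if_false, if_true]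
      cases d <;> simp
    · have n1 : ¬ (tri N (4 * j) (4 * j + 2) (4 * j + 3) = tri N (4 * j) (4 * j + 1) (4 * j + 2)) := by
        rw [tri_inj] <;> omega
      have n2 : ¬ (tri N (4 * j) (4 * j + 2) (4 * j + 3) = tri N (4 * j) (4 * j + 1) (4 * j + 3)) := by
        rw [tri_inj] <;> omega
      rw [es_flp_tri _ (by omega) (by omega) (by omega), if_pos i0]
      simp only [i2, i3, n1, n2, if_false, if_true]
      cases c <;> cases d <;> simp
    · have hv' : TS N j c d v := by
        rw [ihigh v (by omega)]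
        unfold BT; omega
      rw [es_flp_tri _ (by omega) (by omega) (by omega), if_pos i0, if_neg i1, if_pos hv',
        if_neg (by rw [tri_inj] <;> omega), if_neg (by rw [tri_inj] <;> omega),
        if_neg (by rw [tri_inj] <;> omega)]
      ring
  · have h0 : ¬ TS N k c d (4 * j) := by rw [ihigh _ (by omega)]; exact hA
    have h1 : TS N k c d (4 * j + 1) := by rw [ihigh _ (by omega)]; exact hB1
    have h2 : TS N k c d (4 * j + 2) := by rw [ihigh _ (by omega)]; exact hB2
    have h3 : TS N k c d (4 * j + 3) := by rw [ihigh _ (by omega)]; exact hB3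
    rcases h with rfl | rfl | rfl | ⟨v, hv, hv2, hv3, rfl⟩
    · rw [es_flp_tri _ (by omega) (by omega) (by omega), if_neg h0, if_pos h1, if_pos h2,
        if_neg (by rw [tri_inj] <;> omega), if_neg (by rw [tri_inj] <;> omega),
        if_neg (by rw [tri_inj] <;> omega)]
      ring
    · rw [es_flp_tri _ (by omega) (by omega) (by omega), if_neg h0, if_pos h1, if_pos h3,
        if_neg (by rw [tri_inj] <;> omega), if_neg (by rw [tri_inj] <;> omega),
        if_neg (by rw [tri_inj] <;> omega)]
      ring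
    · rw [es_flp_tri _ (by omega) (by omega) (by omega), if_neg h0, if_pos h2, if_pos h3,
        if_neg (by rw [tri_inj] <;> omega), if_neg (by rw [tri_inj] <;> omega),
        if_neg (by rw [tri_inj] <;> omega)]
      ring
    · have hv' : TS N k c d v := by
        rw [ihigh v (by omega)]
        unfold BT; omega
      rw [es_flp_tri _ (by omega) (by omega) (by omega), if_neg h0, if_pos h1, if_pos hv',
        if_neg (by rw [tri_inj] <;> omega), if_neg (by rw [tri_inj] <;> omega),
        if_neg (by rw [tri_inj] <;> omega)]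
      ring

/-! ### the magnetisations -/

variable {N : ℕ} (ρ : ℝ → ℝ) (β : ℝ≥0∞) (J : (EN N) → ℝ)

/-- the spins of type `B` have zero magnetisation -/
lemma mag_B (i : Fin N) (hi : BT N i.val) : gib β (Ham (EN N) ρ J) (sp i) = 0 := by
  refine gib_odd β _ (flp (BT N)) (flp_inv _) ?_ ?_
  · intro σ
    unfold Ham
    refine Finset.sum_congr rfl (fun e _ => ?_)
    rw [es_flp_BT e.1 e.2]
  · intro σ
    rw [sp_flp, if_pos hi]
    ring

/-- extraction of one gadget edge -/
lemma extract_edge (k : ℕ) (hk : 4 * k + 3 < N) (c d : Bool) (e0 : EN N)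
    (h0 : ∀ σ, es e0.1 (flp (TS N k c d) σ) = - es e0.1 σ)
    (h1 : ∀ e : EN N, e ≠ e0 → ∀ σ, es e.1 (flp (TS N k c d) σ) = es e.1 σ)
    {g : Cfg N → ℝ} (hg : ∀ σ, g (flp (TS N k c d) σ) = g σ) :
    gib β (Ham (EN N) ρ J) (fun σ => es e0.1 σ * g σ) =
      fm ρ β (J e0) * gib β (Ham (EN N) ρ J) g := by
  classical
  refine gib_extract ρ β (J e0) (Ham (EN N) ρ J)
    (fun σ => ∑ e ∈ Finset.univ.erase e0, ρ (J e) * es e.1 σ) (es e0.1) (flp (TS N k c d))
    (flp_inv _) ?_ (es_sq _) h0 ?_ hg
  · intro σ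
    unfold Ham
    exact (Finset.add_sum_erase _ _ (Finset.mem_univ e0)).symm
  · intro σ
    refine Finset.sum_congr rfl (fun e he => ?_)
    rw [h1 e (Finset.ne_of_mem_erase he)]

/-- the three gadget edges as elements of `EN N` -/
def ge1 (k : ℕ) (hk : 4 * k + 3 < N) : EN N :=
  ⟨tri N (4 * k) (4 * k + 1) (4 * k + 2), by rw [mem_EN]; exact ⟨k, hk, Or.inl rfl⟩⟩
/-- second edge -/
def ge2 (k : ℕ) (hk : 4 * k + 3 < N) : EN N :=
  ⟨tri N (4 * k) (4 * k + 1) (4 * k + 3), by rw [mem_EN]; exact ⟨k, hk, Or.inr (Or.inl rfl)⟩⟩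
/-- third edge -/
def ge3 (k : ℕ) (hk : 4 * k + 3 < N) : EN N :=
  ⟨tri N (4 * k) (4 * k + 2) (4 * k + 3), by rw [mem_EN]; exact ⟨k, hk, Or.inr (Or.inr (Or.inl rfl))⟩⟩

lemma ge12 (k : ℕ) (hk : 4 * k + 3 < N) : ge1 k hk ≠ ge2 k hk := by
  intro h
  have := congrArg Subtype.val h
  simp only [ge1, ge2] at this
  rw [tri_inj] at this <;> omega

lemma ge13 (k : ℕ) (hk : 4 * k + 3 < N) : ge1 k hk ≠ ge3 k hk := by
  intro h
  have := congrArg Subtype.val h
  simp only [ge1, ge3] at this
  rw [tri_inj] at this <;> omega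

lemma ge23 (k : ℕ) (hk : 4 * k + 3 < N) : ge2 k hk ≠ ge3 k hk := by
  intro h
  have := congrArg Subtype.val h
  simp only [ge2, ge3] at this
  rw [tri_inj] at this <;> omega

/-- the spin `σ_{4k}` is the product of the three gadget edges -/
lemma sp_gadget (k : ℕ) (hk : 4 * k + 3 < N) (σ : Cfg N) :
    sp ⟨4 * k, by omega⟩ σ = es (ge1 k hk).1 σ * (es (ge2 k hk).1 σ * (es (ge3 k hk).1 σ * 1)) := by
  simp only [ge1, ge2, ge3]
  rw [es_tri (by omega) (by omega) (by omega), es_tri (by omega) (by omega) (by omega),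
    es_tri (by omega) (by omega) (by omega)]
  have ha := sp_sq (⟨4 * k, by omega⟩ : Fin N) σ
  have hb := sp_sq (⟨4 * k + 1, by omega⟩ : Fin N) σ
  have hc := sp_sq (⟨4 * k + 2, by omega⟩ : Fin N) σ
  have hd := sp_sq (⟨4 * k + 3, by omega⟩ : Fin N) σ
  set a := sp (⟨4 * k, by omega⟩ : Fin N) σ
  set b := sp (⟨4 * k + 1, by omega⟩ : Fin N) σ
  set c := sp (⟨4 * k + 2, by omega⟩ : Fin N) σ
  set d := sp (⟨4 * k + 3, by omega⟩ : Fin N) σ
  have : a * b * c * (a * b * d * (a * c * d * 1)) = a * (a * a) * (b * b) * (c * c) * (d * d) := by ring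
  rw [this, ha, hb, hc, hd]
  ring

/-- **magnetisation of the gadget spin** -/
lemma mag_A (k : ℕ) (hk : 4 * k + 3 < N) :
    gib β (Ham (EN N) ρ J) (sp ⟨4 * k, by omega⟩) =
      fm ρ β (J (ge1 k hk)) * (fm ρ β (J (ge2 k hk)) * fm ρ β (J (ge3 k hk))) := by
  have e0 : (sp (⟨4 * k, by omega⟩ : Fin N)) =
      fun σ => es (ge1 k hk).1 σ * (es (ge2 k hk).1 σ * (es (ge3 k hk).1 σ * 1)) := by
    funext σ; exact sp_gadget k hk σ
  have n12 : (tri N (4 * k) (4 * k + 1) (4 * k + 3)) ≠ tri N (4 * k) (4 * k + 1) (4 * k + 2) := by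
    rw [ne_eq, tri_inj] <;> omega
  have n31 : (tri N (4 * k) (4 * k + 2) (4 * k + 3)) ≠ tri N (4 * k) (4 * k + 1) (4 * k + 2) := by
    rw [ne_eq, tri_inj] <;> omega
  have n32 : (tri N (4 * k) (4 * k + 2) (4 * k + 3)) ≠ tri N (4 * k) (4 * k + 1) (4 * k + 3) := by
    rw [ne_eq, tri_inj] <;> omega
  have g1 : (ge1 k hk).1 = tri N (4 * k) (4 * k + 1) (4 * k + 2) := rfl
  have g2 : (ge2 k hk).1 = tri N (4 * k) (4 * k + 1) (4 * k + 3) := rfl
  have g3 : (ge3 k hk).1 = tri N (4 * k) (4 * k + 2) (4 * k + 3) := rfl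
  have v1 : ∀ c d σ, es (ge1 k hk).1 (flp (TS N k c d) σ) = (if c = true then 1 else -1) * es (ge1 k hk).1 σ := by
    intro c d σ
    rw [es_flp_TS k hk c d _ (ge1 k hk).2, if_pos g1]
  have v2 : ∀ c d σ, es (ge2 k hk).1 (flp (TS N k c d) σ) = (if d = true then 1 else -1) * es (ge2 k hk).1 σ := by
    intro c d σ
    rw [es_flp_TS k hk c d _ (ge2 k hk).2, if_neg (by rw [g2]; exact n12), if_pos g2]
  have v3 : ∀ c d σ, es (ge3 k hk).1 (flp (TS N k c d) σ) = (if c = d then -1 else 1) * es (ge3 k hk).1 σ := by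
    intro c d σ
    rw [es_flp_TS k hk c d _ (ge3 k hk).2, if_neg (by rw [g3]; exact n31),
      if_neg (by rw [g3]; exact n32), if_pos g3]
  have vo : ∀ e : EN N, e ≠ ge1 k hk → e ≠ ge2 k hk → e ≠ ge3 k hk → ∀ c d σ,
      es e.1 (flp (TS N k c d) σ) = es e.1 σ := by
    intro e h1 h2 h3 c d σ
    rw [es_flp_TS k hk c d _ e.2, if_neg, if_neg, if_neg]
    · ring
    · intro h; exact h3 (Subtype.ext h)
    · intro h; exact h2 (Subtype.ext h)
    · intro h; exact h1 (Subtype.ext h)
  rw [e0]
  rw [extract_edge ρ β J k hk false true (ge1 k hk)]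
  · rw [extract_edge ρ β J k hk true false (ge2 k hk)]
    · rw [extract_edge ρ β J k hk true true (ge3 k hk)]
      · rw [gib_const, mul_one]
      · intro σ; rw [v3]; simp
      · intro e he σ
        by_cases h1 : e = ge1 k hk
        · rw [h1, v1]; simp
        · by_cases h2 : e = ge2 k hk
          · rw [h2, v2]; simp
          · exact vo e h1 h2 he _ _ σ
      · intro σ; rfl
    · intro σ; rw [v2]; simp
    · intro e he σ
      by_cases h1 : e = ge1 k hk
      · rw [h1, v1]; simp
      · by_cases h3 : e = ge3 k hk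
        · rw [h3, v3]; simp
        · exact vo e h1 he h3 _ _ σ
    · intro σ; rw [v3]; simp
  · intro σ; rw [v1]; simp
  · intro e he σ
    by_cases h2 : e = ge2 k hk
    · rw [h2, v2]; simp
    · by_cases h3 : e = ge3 k hk
      · rw [h3, v3]; simp
      · exact vo e he h2 h3 _ _ σ
  · intro σ; rw [v2, v3]; simp

end Pool.Agent.Q216.HG
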