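import Pool.Agent.Q216.HG.Prob

set_option autoImplicit false

/-!
# Positivity of `E[f(J) f(J(t))]`, growth and connectivity
-/

namespace Pool.Agent.Q216.HG

open MeasureTheory ProbabilityTheory
open scoped ENNReal

lemma int_law1 {t : ℝ} (ht : 0 ≤ t) (F : ℝ × ℝ × Bool → ℝ) (hF : Measurable F) (C : ℝ)
    (hC : ∀ w, |F w| ≤ C) :
    ∫ w, F w ∂(law1 t) = ∫ x, ∫ y, (Real.exp (-t) * F (x, y, true) +
      (1 - Real.exp (-t)) * F (x, y, false)) ∂(gaussianReal 0 1) ∂(gaussianReal 0 1) := by
  have h1 : Real.exp (-t) ≤ 1 := Real.exp_le_one_iff.2 (by linarith)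
  set ν : Measure Bool := ENNReal.ofReal (Real.exp (-t)) • Measure.dirac true +
      ENNReal.ofReal (1 - Real.exp (-t)) • Measure.dirac false with hν
  have hνp : IsProbabilityMeasure ν := by
    constructor
    simp only [hν, Measure.coe_add, Measure.coe_smul, Pi.add_apply, Pi.smul_apply, measure_univ,
      smul_eq_mul, mul_one]
    rw [← ENNReal.ofReal_add (Real.exp_pos _).le (by linarith)]
    simp
  have hlaw : law1 t = (gaussianReal 0 1).prod ((gaussianReal 0 1).prod ν) := rfl
  have hb : ∀ G : Bool → ℝ, ∫ b, G b ∂ν = Real.exp (-t) * G true + (1 - Real.exp (-t)) * G false := by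
    intro G
    rw [hν, integral_add_measure, integral_smul_measure, integral_smul_measure, integral_dirac,
      integral_dirac, ENNReal.toReal_ofReal (Real.exp_pos _).le, ENNReal.toReal_ofReal (by linarith)]
    · simp
    · exact Integrable.smul_measure Integrable.of_finite ENNReal.ofReal_ne_top
    · exact Integrable.smul_measure Integrable.of_finite ENNReal.ofReal_ne_top
  rw [hlaw, integral_prod]
  · refine integral_congr_ae (Filter.Eventually.of_forall (fun x => ?_))
    simp only
    rw [integral_prod]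
    · refine integral_congr_ae (Filter.Eventually.of_forall (fun y => ?_))
      simp only
      rw [hb]
    · refine Integrable.of_bound (C := C) (hF.comp (by fun_prop)).aestronglyMeasurable ?_
      exact Filter.Eventually.of_forall (fun w => by rw [Real.norm_eq_abs]; exact hC _)
  · refine Integrable.of_bound (C := C) hF.aestronglyMeasurable ?_
    exact Filter.Eventually.of_forall (fun w => by rw [Real.norm_eq_abs]; exact hC _)

lemma pd_measurable : Measurable pd := by
  unfold pd
  refine Measurable.ite ?_ measurable_fst (measurable_fst.comp measurable_snd)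
  exact measurableSet_eq_fun (measurable_snd.comp measurable_snd) measurable_const

lemma pc_measurable (t : ℝ) : Measurable (pc t) := by
  unfold pc
  exact (measurable_fst.const_mul _).add ((measurable_fst.comp measurable_snd).const_mul _)

lemma fm_eq_zero {ρ : ℝ → ℝ} {β : ℝ≥0∞} (hβ : β ≠ 0) (x : ℝ) : fm ρ β x = 0 ↔ ρ x = 0 := by
  unfold fm
  split_ifs with h
  · rcases lt_trichotomy (ρ x) 0 with h | h | h
    · rw [sign_neg h]; simp; exact h.ne
    · rw [h]; simp
    · rw [sign_pos h]; simp; exact h.ne'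
  · have hb : 0 < β.toReal := ENNReal.toReal_pos hβ h
    rw [Real.tanh_eq_sinh_div_cosh, div_eq_zero_iff]
    constructor
    · intro h2
      rcases h2 with h2 | h2
      · rw [Real.sinh_eq_zero] at h2
        rcases mul_eq_zero.1 h2 with h3 | h3
        · exact absurd h3 hb.ne'
        · exact h3
      · exact absurd h2 (Real.cosh_pos _).ne'
    · intro h2
      left; rw [h2]; simp

/-- discrete perturbation -/
lemma pos_disc {ρ : ℝ → ℝ} (hρ : Measurable ρ) (hne : ¬ (ρ =ᵐ[gaussianReal 0 1] 0))
    {β : ℝ≥0∞} (hβ : β ≠ 0) {t : ℝ} (ht : 0 ≤ t) :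
    0 < ∫ w, fm ρ β w.1 * fm ρ β (pd w) ∂(law1 t) := by
  have hfm := fm_measurable hρ β
  have h1 : Real.exp (-t) ≤ 1 := Real.exp_le_one_iff.2 (by linarith)
  have hp := Real.exp_pos (-t)
  rw [int_law1 ht (fun w => fm ρ β w.1 * fm ρ β (pd w))
    ((hfm.comp measurable_fst).mul (hfm.comp pd_measurable)) 1 (fun w => by
      rw [abs_mul]; exact mul_le_one₀ (fm_abs _ _ _) (abs_nonneg _) (fm_abs _ _ _))]
  have hint : Integrable (fm ρ β) (gaussianReal 0 1) := by
    refine Integrable.of_bound (C := 1) hfm.aestronglyMeasurable ?_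
    exact Filter.Eventually.of_forall (fun w => by rw [Real.norm_eq_abs]; exact fm_abs _ _ _)
  have hint2 : Integrable (fun x => fm ρ β x * fm ρ β x) (gaussianReal 0 1) := by
    refine Integrable.of_bound (C := 1) (hfm.mul hfm).aestronglyMeasurable ?_
    exact Filter.Eventually.of_forall (fun w => by
      rw [Real.norm_eq_abs, abs_mul]; exact mul_le_one₀ (fm_abs _ _ _) (abs_nonneg _) (fm_abs _ _ _))
  have e1 : ∀ x : ℝ, ∫ y, (Real.exp (-t) * (fm ρ β (x, y, true).1 * fm ρ β (pd (x, y, true))) +
      (1 - Real.exp (-t)) * (fm ρ β (x, y, false).1 * fm ρ β (pd (x, y, false)))) ∂(gaussianReal 0 1) =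
      Real.exp (-t) * (fm ρ β x * fm ρ β x) +
        ((1 - Real.exp (-t)) * ∫ y, fm ρ β y ∂(gaussianReal 0 1)) * fm ρ β x := by
    intro x
    simp only [pd, if_true]
    rw [integral_add (integrable_const _)]
    · rw [integral_const, probReal_univ, one_smul, integral_const_mul, integral_const_mul]
      simp only [Bool.false_eq_true, if_false]
      ring
    · simp only [Bool.false_eq_true, if_false]
      exact (hint.const_mul _).const_mul _
  simp only [e1]
  rw [integral_add (hint2.const_mul _) (hint.const_mul _), integral_const_mul, integral_const_mul]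
  have h2 : 0 < ∫ x, fm ρ β x * fm ρ β x ∂(gaussianReal 0 1) := by
    rw [integral_pos_iff_support_of_nonneg (fun x => mul_self_nonneg _) hint2]
    rw [pos_iff_ne_zero]
    intro h0
    apply hne
    rw [Filter.EventuallyEq, ae_iff]
    convert h0 using 2
    ext x
    simp only [Function.mem_support, Set.mem_ofPred_eq, Pi.zero_apply, ne_eq, mul_self_eq_zero]
    rw [fm_eq_zero hβ]
  nlinarith [sq_nonneg (∫ y, fm ρ β y ∂(gaussianReal 0 1)),
    mul_nonneg (sub_nonneg.2 h1) (sq_nonneg (∫ y, fm ρ β y ∂(gaussianReal 0 1)))]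

lemma fm_odd {ρ : ℝ → ℝ} (ho : ∀ x, ρ (-x) = - ρ x) (β : ℝ≥0∞) (x : ℝ) : fm ρ β (-x) = - fm ρ β x := by
  unfold fm
  split_ifs with h
  · rw [ho, Left.sign_neg]; simp
  · rw [ho, mul_neg, Real.tanh_neg]

lemma fm_mono {ρ : ℝ → ℝ} (hm : Monotone ρ) (β : ℝ≥0∞) : Monotone (fm ρ β) := by
  intro x y hxy
  unfold fm
  have h1 := hm hxy
  split_ifs with h
  · have h2 : SignType.sign (ρ x) ≤ SignType.sign (ρ y) := SignType.sign.monotone h1
    have h3 : ∀ a b : SignType, a ≤ b → (a : ℝ) ≤ (b : ℝ) := by
      intro a b hab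
      cases a <;> cases b <;> first | (exfalso; revert hab; decide) | norm_num
    exact h3 _ _ h2
  · have hb : 0 ≤ β.toReal := ENNReal.toReal_nonneg
    have h2 : β.toReal * ρ x ≤ β.toReal * ρ y := mul_le_mul_of_nonneg_left h1 hb
    rw [Real.tanh_eq_sinh_div_cosh, Real.tanh_eq_sinh_div_cosh, div_le_div_iff₀ (Real.cosh_pos _) (Real.cosh_pos _)]
    have h3 : Real.sinh (β.toReal * ρ x - β.toReal * ρ y) ≤ 0 := by
      rw [← Real.sinh_zero, Real.sinh_le_sinh]; linarith
    rw [Real.sinh_sub] at h3
    linarith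

/-- continuous perturbation, monotone `ρ` -/
lemma pos_cont {ρ : ℝ → ℝ} (hm : Monotone ρ) (ho : ∀ x, ρ (-x) = - ρ x) (hne : ∃ x, ρ x ≠ 0)
    {β : ℝ≥0∞} (hβ : β ≠ 0) {t : ℝ} (ht : 0 ≤ t) :
    0 < ∫ w, fm ρ β w.1 * fm ρ β (pc t w) ∂(law1 t) := by
  have hρ : Measurable ρ := hm.measurable
  have hfm := fm_measurable hρ β
  have h1 : Real.exp (-t) ≤ 1 := Real.exp_le_one_iff.2 (by linarith)
  have hp := Real.exp_pos (-t)
  rw [int_law1 ht (fun w => fm ρ β w.1 * fm ρ β (pc t w))
    ((hfm.comp measurable_fst).mul (hfm.comp (pc_measurable t))) 1 (fun w => by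
      rw [abs_mul]; exact mul_le_one₀ (fm_abs _ _ _) (abs_nonneg _) (fm_abs _ _ _))]
  set s : ℝ := Real.exp (-t) with hs
  set r : ℝ := Real.sqrt (1 - Real.exp (-2 * t)) with hr
  have hr0 : 0 ≤ r := Real.sqrt_nonneg _
  set f : ℝ → ℝ := fm ρ β with hf
  have fodd : ∀ x, f (-x) = - f x := fm_odd ho β
  have fmono : Monotone f := fm_mono hm β
  have f0 : f 0 = 0 := by have := fodd 0; simp at this; linarith
  have fabs : ∀ x, |f x| ≤ 1 := fm_abs ρ β
  set h : ℝ → ℝ := fun x => ∫ y, f (s * x + r * y) ∂(gaussianReal 0 1) with hh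
  have e1 : ∀ x : ℝ, ∫ y, (s * (f (x, y, true).1 * f (pc t (x, y, true))) +
      (1 - s) * (f (x, y, false).1 * f (pc t (x, y, false)))) ∂(gaussianReal 0 1) = f x * h x := by
    intro x
    have : ∀ y : ℝ, (s * (f (x, y, true).1 * f (pc t (x, y, true))) +
      (1 - s) * (f (x, y, false).1 * f (pc t (x, y, false)))) = f x * f (s * x + r * y) := by
      intro y
      simp only [pc]
      rw [← hs, ← hr]
      ring
    simp only [this]
    rw [integral_const_mul]
  simp only [e1]
  -- integrability
  have hcomp : ∀ a b : ℝ, Integrable (fun y => f (a + b * y)) (gaussianReal 0 1) := by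
    intro a b
    refine Integrable.of_bound (C := 1) (hfm.comp (by fun_prop)).aestronglyMeasurable ?_
    exact Filter.Eventually.of_forall (fun w => by rw [Real.norm_eq_abs]; exact fabs _)
  -- symmetrised formula
  have hsym : ∀ x, 2 * h x = ∫ y, (f (s * x + r * y) + f (s * x - r * y)) ∂(gaussianReal 0 1) := by
    intro x
    have h2 : ∫ y, f (s * x - r * y) ∂(gaussianReal 0 1) = h x := by
      have hmap : (gaussianReal 0 1).map (fun y : ℝ => -y) = gaussianReal 0 1 := by
        rw [gaussianReal_map_neg]; simp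
      have h3 : ∫ y, f (s * x + r * y) ∂((gaussianReal 0 1).map (fun y : ℝ => -y)) =
          ∫ y, f (s * x + r * (-y)) ∂(gaussianReal 0 1) :=
        integral_map measurable_neg.aemeasurable (hfm.comp (by fun_prop)).aestronglyMeasurable
      rw [hmap] at h3
      rw [hh]
      simp only
      rw [h3]
      refine integral_congr_ae (Filter.Eventually.of_forall (fun y => ?_))
      simp only
      congr 1; ring
    rw [integral_add (hcomp _ _)]
    · rw [h2]; simp only [hh]; ring
    · have := hcomp (s * x) (-r)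
      refine this.congr (Filter.Eventually.of_forall (fun y => ?_))
      simp only
      congr 1; ring
  have hsub : ∀ x, Integrable (fun y => f (s * x + r * y) + f (s * x - r * y)) (gaussianReal 0 1) := by
    intro x
    refine (hcomp _ _).add ?_
    have := hcomp (s * x) (-r)
    refine this.congr (Filter.Eventually.of_forall (fun y => ?_))
    simp only
    congr 1; ring
  -- sign of h
  have hpos : ∀ x, 0 ≤ x → ∀ y, 0 ≤ f (s * x + r * y) + f (s * x - r * y) := by
    intro x hx y
    have h2 : f (s * x - r * y) = - f (r * y - s * x) := by rw [← fodd]; congr 1; ring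
    rw [h2]
    have h3 : r * y - s * x ≤ s * x + r * y := by nlinarith
    linarith [fmono h3]
  have hneg : ∀ x, x ≤ 0 → ∀ y, f (s * x + r * y) + f (s * x - r * y) ≤ 0 := by
    intro x hx y
    have h2 : f (s * x - r * y) = - f (r * y - s * x) := by rw [← fodd]; congr 1; ring
    rw [h2]
    have h3 : s * x + r * y ≤ r * y - s * x := by nlinarith
    linarith [fmono h3]
  have hfh : ∀ x, 0 ≤ f x * h x := by
    intro x
    rcases le_total 0 x with hx | hx
    · have h2 : 0 ≤ h x := by
        have : 0 ≤ ∫ y, (f (s * x + r * y) + f (s * x - r * y)) ∂(gaussianReal 0 1) :=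
          integral_nonneg (hpos x hx)
        rw [← hsym] at this; linarith
      have h3 : 0 ≤ f x := by rw [← f0]; exact fmono hx
      positivity
    · have h2 : h x ≤ 0 := by
        have : ∫ y, (f (s * x + r * y) + f (s * x - r * y)) ∂(gaussianReal 0 1) ≤ 0 :=
          integral_nonpos (hneg x hx)
        rw [← hsym] at this; linarith
      have h3 : f x ≤ 0 := by rw [← f0]; exact fmono hx
      exact mul_nonneg_of_nonpos_of_nonpos h3 h2
  -- a point where f is positive
  obtain ⟨x0, hx0, hfx0⟩ : ∃ x0, 0 ≤ x0 ∧ 0 < f x0 := by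
    obtain ⟨x, hx⟩ := hne
    have hfx : f x ≠ 0 := fun h => hx ((fm_eq_zero hβ x).1 h)
    rcases le_total 0 x with h2 | h2
    · refine ⟨x, h2, lt_of_le_of_ne ?_ (Ne.symm hfx)⟩
      rw [← f0]; exact fmono h2
    · refine ⟨-x, by linarith, lt_of_le_of_ne ?_ ?_⟩
      · rw [← f0]; exact fmono (by linarith)
      · rw [fodd]; intro h; apply hfx; linarith
  have hhm : Measurable h := by
    have : StronglyMeasurable (fun x => ∫ y, f (s * x + r * y) ∂(gaussianReal 0 1)) :=
      StronglyMeasurable.integral_prod_right' (f := fun p : ℝ × ℝ => f (s * p.1 + r * p.2))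
        (hfm.comp (by fun_prop)).stronglyMeasurable
    exact this.measurable
  have hhabs : ∀ x, |h x| ≤ 1 := by
    intro x
    have := norm_integral_le_of_norm_le_const (μ := gaussianReal 0 1) (C := 1)
      (f := fun y => f (s * x + r * y))
      (Filter.Eventually.of_forall (fun y => by rw [Real.norm_eq_abs]; exact fabs _))
    simpa using this
  have hfhint : Integrable (fun x => f x * h x) (gaussianReal 0 1) := by
    refine Integrable.of_bound (C := 1) (hfm.mul hhm).aestronglyMeasurable ?_
    exact Filter.Eventually.of_forall (fun w => by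
      rw [Real.norm_eq_abs, abs_mul]; exact mul_le_one₀ (fabs _) (abs_nonneg _) (hhabs _))
  rw [integral_pos_iff_support_of_nonneg hfh hfhint]
  have hvol : ∀ U : Set ℝ, volume U ≠ 0 → (gaussianReal 0 1) U ≠ 0 := by
    intro U hU h0
    exact hU (gaussianReal_absolutelyContinuous' 0 one_ne_zero h0)
  have hsubset : Set.Ioi (x0 / s) ⊆ Function.support (fun x => f x * h x) := by
    intro x hx
    rw [Set.mem_Ioi, div_lt_iff₀ hp] at hx
    have hsx : x0 < s * x := by linarith
    have hxpos : 0 < x := by
      by_contra hcon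
      push Not at hcon
      nlinarith
    have hxx0 : x0 ≤ x := by nlinarith
    have hfx : 0 < f x := lt_of_lt_of_le hfx0 (fmono hxx0)
    have hhx : 0 < h x := by
      have h2 : 0 < ∫ y, (f (s * x + r * y) + f (s * x - r * y)) ∂(gaussianReal 0 1) := by
        rw [integral_pos_iff_support_of_nonneg (hpos x hxpos.le) (hsub x)]
        rw [pos_iff_ne_zero]
        set δ : ℝ := (s * x - x0) / (r + 1) with hδ
        have hδ0 : 0 < δ := div_pos (by linarith) (by linarith)
        have hsub2 : Set.Ioo (-δ) δ ⊆ Function.support (fun y => f (s * x + r * y) + f (s * x - r * y)) := by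
          intro y hy
          rw [Set.mem_Ioo] at hy
          have h3 : r * δ ≤ s * x - x0 := by
            rw [hδ, ← mul_div_assoc, div_le_iff₀ (by linarith)]
            nlinarith
          have h4 : -(r * δ) ≤ r * y := by nlinarith
          have h5 : r * y ≤ r * δ := by nlinarith
          have h6 : f x0 ≤ f (s * x + r * y) := fmono (by linarith)
          have h7 : f x0 ≤ f (s * x - r * y) := fmono (by linarith)
          rw [Function.mem_support]
          linarith
        intro h0
        have h8 : (gaussianReal 0 1) (Set.Ioo (-δ) δ) = 0 := measure_mono_null hsub2 h0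
        refine hvol _ ?_ h8
        rw [Real.volume_Ioo]
        simp [hδ0]
      rw [← hsym] at h2
      linarith
    rw [Function.mem_support]
    positivity
  rw [pos_iff_ne_zero]
  intro h0
  have h8 : (gaussianReal 0 1) (Set.Ioi (x0 / s)) = 0 := measure_mono_null hsubset h0
  refine hvol _ ?_ h8
  rw [Real.volume_Ioi]
  simp

/-! ### growth and connectivity -/

/-- a chain of `k ≥ 1` hyperedges from `v` to `w` -/
def Chain {N : ℕ} (E : Finset (Finset (Fin N))) (k : ℕ) (v w : Fin N) : Prop :=
  ∃ e : ℕ → Finset (Fin N), (∀ j < k, e j ∈ E) ∧ v ∈ e 0 ∧ w ∈ e (k - 1) ∧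
    ∀ j, j + 1 < k → (e j ∩ e (j + 1)).Nonempty

open Classical in
/-- the ball `B_r(v)` -/
noncomputable def ball {N : ℕ} (E : Finset (Finset (Fin N))) (r : ℕ) (v : Fin N) : Finset (Fin N) :=
  Finset.univ.filter (fun w => v = w ∨ ∃ k, 1 ≤ k ∧ k ≤ r ∧ Chain E k v w)

lemma edge_near {N : ℕ} (e : Finset (Fin N)) (he : e ∈ EN N) (u w : Fin N) (hu : u ∈ e) (hw : w ∈ e) :
    u.val / 4 ≤ w.val / 4 + 1 := by
  rw [mem_EN] at he
  obtain ⟨k, hk, h⟩ := he
  have hu2 := u.2
  have hw2 := w.2
  rcases h with rfl | rfl | rfl | ⟨v, hv, hv2, hv3, rfl⟩ <;> rw [mem_tri] at hu hw <;> omega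

lemma chain_near {N : ℕ} {k : ℕ} {v w : Fin N} (hk : 1 ≤ k) (h : Chain (EN N) k v w) :
    w.val / 4 ≤ v.val / 4 + k ∧ v.val / 4 ≤ w.val / 4 + k := by
  obtain ⟨e, he, hv, hw, hc⟩ := h
  have key : ∀ j, j < k → ∀ u ∈ e j, u.val / 4 ≤ v.val / 4 + (j + 1) ∧ v.val / 4 ≤ u.val / 4 + (j + 1) := by
    intro j
    induction j with
    | zero =>
      intro hj u hu
      have h1 := edge_near (e 0) (he 0 hj) u v hu hv
      have h2 := edge_near (e 0) (he 0 hj) v u hv hu
      omega
    | succ j ih =>
      intro hj u hu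
      obtain ⟨x, hx⟩ := hc j hj
      rw [Finset.mem_inter] at hx
      have h3 := ih (by omega) x hx.1
      have h1 := edge_near (e (j + 1)) (he _ hj) u x hu hx.2
      have h2 := edge_near (e (j + 1)) (he _ hj) x u hx.2 hu
      omega
  have := key (k - 1) (by omega) w hw
  omega

lemma ball_card {N : ℕ} (r : ℕ) (v : Fin N) : (ball (EN N) r v).card ≤ 8 * r + 4 := by
  classical
  have h1 : (ball (EN N) r v).card ≤ (Finset.Icc (4 * (v.val / 4 - r)) (4 * (v.val / 4 - r) + (8 * r + 3))).card := by
    refine Finset.card_le_card_of_injOn (fun w => w.val) ?_ ?_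
    · intro w hw
      simp only [ball, Finset.coe_filter, Finset.mem_univ, true_and, Set.mem_ofPred_eq] at hw
      simp only [Finset.coe_Icc, Set.mem_Icc]
      rcases hw with rfl | ⟨k, hk1, hk2, hch⟩
      · omega
      · have := chain_near hk1 hch
        omega
    · intro a _ b _ hab
      exact Fin.ext hab
  rw [Nat.card_Icc] at h1
  omega

lemma adj_of_tri {N a b c x y : ℕ} (hx : x < N) (hy : y < N) (he : tri N a b c ∈ EN N)
    (h1 : x = a ∨ x = b ∨ x = c) (h2 : y = a ∨ y = b ∨ y = c) :
    ∃ e ∈ EN N, (⟨x, hx⟩ : Fin N) ∈ e ∧ (⟨y, hy⟩ : Fin N) ∈ e :=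
  ⟨_, he, by rw [mem_tri]; exact h1, by rw [mem_tri]; exact h2⟩

lemma conn0 {N : ℕ} (hN : 4 ≤ N) : ∀ (m : ℕ) (hm : m < N),
    Relation.ReflTransGen (fun u w => ∃ e ∈ EN N, u ∈ e ∧ w ∈ e) (⟨m, hm⟩ : Fin N) ⟨0, by omega⟩ := by
  intro m
  induction m using Nat.strong_induction_on with
  | _ m ih =>
    intro hm
    rcases Nat.eq_zero_or_pos m with h0 | h0
    · subst h0; exact Relation.ReflTransGen.refl
    · by_cases hfull : 4 * (m / 4) + 3 < N
      · by_cases h4 : m % 4 = 0
        · -- m = 4k, k ≥ 1 : to 4k+1, then to 4(k-1)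
          set k := m / 4 with hk
          have hmk : m = 4 * k := by omega
          have e1 : tri N (4 * k) (4 * k + 1) (4 * k + 2) ∈ EN N := by
            rw [mem_EN]; exact ⟨k, hfull, Or.inl rfl⟩
          have e2 : tri N (4 * (k - 1)) (4 * (k - 1) + 1) (4 * k + 1) ∈ EN N := by
            rw [mem_EN]
            exact ⟨k - 1, by omega, Or.inr (Or.inr (Or.inr ⟨4 * k + 1, by omega, by omega, by omega, rfl⟩))⟩
          refine Relation.ReflTransGen.head
            (adj_of_tri (y := 4 * k + 1) hm (by omega) e1 (by omega) (by omega)) ?_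
          refine Relation.ReflTransGen.head
            (adj_of_tri (y := 4 * (k - 1)) (by omega) (by omega) e2 (by omega) (by omega)) ?_
          exact ih (4 * (k - 1)) (by omega) (by omega)
        · set k := m / 4 with hk
          have e1 : tri N (4 * k) (4 * k + 1) (4 * k + 2) ∈ EN N := by
            rw [mem_EN]; exact ⟨k, hfull, Or.inl rfl⟩
          have e2 : tri N (4 * k) (4 * k + 1) (4 * k + 3) ∈ EN N := by
            rw [mem_EN]; exact ⟨k, hfull, Or.inr (Or.inl rfl)⟩
          by_cases h3 : m = 4 * k + 3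
          · refine Relation.ReflTransGen.head
              (adj_of_tri (y := 4 * k) hm (by omega) e2 (by omega) (by omega)) ?_
            exact ih (4 * k) (by omega) (by omega)
          · refine Relation.ReflTransGen.head
              (adj_of_tri (y := 4 * k) hm (by omega) e1 (by omega) (by omega)) ?_
            exact ih (4 * k) (by omega) (by omega)
      · -- leftover vertex
        set k := N / 4 - 1 with hk
        have e1 : tri N (4 * k) (4 * k + 1) m ∈ EN N := by
          rw [mem_EN]
          exact ⟨k, by omega, Or.inr (Or.inr (Or.inr ⟨m, hm, by omega, by omega, rfl⟩))⟩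
        refine Relation.ReflTransGen.head
          (adj_of_tri (y := 4 * k) hm (by omega) e1 (by omega) (by omega)) ?_
        exact ih (4 * k) (by omega) (by omega)

lemma connected {N : ℕ} (hN : 4 ≤ N) (v w : Fin N) :
    Relation.ReflTransGen (fun u w => ∃ e ∈ EN N, u ∈ e ∧ w ∈ e) v w := by
  have h1 := conn0 hN v.val v.2
  have h2 := conn0 hN w.val w.2
  refine h1.trans ?_
  refine Relation.ReflTransGen.mono ?_ _ _ h2.swap
  rintro a b ⟨e, he, ha, hb⟩
  exact ⟨e, he, hb, ha⟩

end Pool.Agent.Q216.HG
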