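import Pool.Agent.Q216.HG.Graph

set_option autoImplicit false

/-!
# Averages over the disorder
-/

namespace Pool.Agent.Q216.HG

open MeasureTheory ProbabilityTheory
open scoped ENNReal

lemma law1_prob {t : ℝ} (ht : 0 ≤ t) : IsProbabilityMeasure (law1 t) := by
  have h : IsProbabilityMeasure (ENNReal.ofReal (Real.exp (-t)) • Measure.dirac true +
      ENNReal.ofReal (1 - Real.exp (-t)) • Measure.dirac false : Measure Bool) := by
    constructor
    simp only [Measure.coe_add, Measure.coe_smul, Pi.add_apply, Pi.smul_apply, measure_univ,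
      smul_eq_mul, mul_one]
    have h1 : Real.exp (-t) ≤ 1 := Real.exp_le_one_iff.2 (by linarith)
    rw [← ENNReal.ofReal_add (Real.exp_pos _).le (by linarith)]
    simp
  unfold law1
  infer_instance

lemma fm_abs (ρ : ℝ → ℝ) (β : ℝ≥0∞) (x : ℝ) : |fm ρ β x| ≤ 1 := by
  unfold fm
  split_ifs with h
  · rcases lt_trichotomy (ρ x) 0 with h | h | h
    · rw [sign_neg h]; simp
    · rw [h]; simp
    · rw [sign_pos h]; simp
  · exact (Real.abs_tanh_lt_one _).le

lemma sign_measurable : Measurable (fun x : ℝ => (SignType.sign x : ℝ)) := by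
  have : (fun x : ℝ => (SignType.sign x : ℝ)) = fun x => if 0 < x then 1 else if x < 0 then -1 else 0 := by
    funext x
    rcases lt_trichotomy x 0 with h | h | h
    · rw [sign_neg h, if_neg (by linarith), if_pos h]; simp
    · rw [h]; simp
    · rw [sign_pos h, if_pos h]; simp
  rw [this]
  refine Measurable.ite (measurableSet_lt measurable_const measurable_id) measurable_const ?_
  exact Measurable.ite (measurableSet_lt measurable_id measurable_const) measurable_const measurable_const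

lemma fm_measurable {ρ : ℝ → ℝ} (hρ : Measurable ρ) (β : ℝ≥0∞) : Measurable (fm ρ β) := by
  unfold fm
  by_cases h : β = ⊤
  · simp only [h, if_true]
    exact sign_measurable.comp hρ
  · simp only [h, if_false]
    have ht : Measurable Real.tanh := by
      have : Real.tanh = fun x => Real.sinh x / Real.cosh x := by
        funext x; exact Real.tanh_eq_sinh_div_cosh x
      rw [this]
      exact Real.measurable_sinh.div Real.measurable_cosh
    exact ht.comp (measurable_const.mul hρ)

variable {N : ℕ} {E : Finset (Finset (Fin N))} {ρ : ℝ → ℝ} {β : ℝ≥0∞}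

lemma gib_measurable (hρ : Measurable ρ) {X : ℝ × ℝ × Bool → ℝ} (hX : Measurable X) (g : Cfg N → ℝ) :
    Measurable (fun ω : E → ℝ × ℝ × Bool => gib β (Ham E ρ (fun e => X (ω e))) g) := by
  have hH : ∀ σ, Measurable (fun ω : E → ℝ × ℝ × Bool => Ham E ρ (fun e => X (ω e)) σ) := by
    intro σ
    unfold Ham
    refine Finset.measurable_sum _ (fun e _ => ?_)
    exact ((hρ.comp (hX.comp (measurable_pi_apply e))).mul_const _)
  have hw : ∀ σ, Measurable (fun ω : E → ℝ × ℝ × Bool => gw β (Ham E ρ (fun e => X (ω e))) σ) := by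
    intro σ
    unfold gw
    by_cases h : β = ⊤
    · simp only [h, if_true]
      refine Measurable.ite ?_ measurable_const measurable_const
      have : {ω : E → ℝ × ℝ × Bool | ∀ τ, Ham E ρ (fun e => X (ω e)) τ ≤ Ham E ρ (fun e => X (ω e)) σ} =
          ⋂ τ, {ω | Ham E ρ (fun e => X (ω e)) τ ≤ Ham E ρ (fun e => X (ω e)) σ} := by
        ext ω; simp
      rw [this]
      exact MeasurableSet.iInter (fun τ => measurableSet_le (hH τ) (hH σ))
    · simp only [h, if_false]
      exact Real.measurable_exp.comp ((hH σ).const_mul _)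
  unfold gib
  exact (Finset.measurable_sum _ (fun σ _ => (hw σ).mul_const _)).div
    (Finset.measurable_sum _ (fun σ _ => hw σ))

lemma abs_sp_mul (i : Fin N) (σ τ : Cfg N) : |sp i σ * sp i τ| ≤ 1 := by
  rw [abs_mul, abs_sp, abs_sp]; norm_num

lemma abs_ovl (σ τ : Cfg N) : |ovl σ τ| ≤ 1 := by
  unfold ovl
  rcases Nat.eq_zero_or_pos N with h | h
  · subst h; simp
  · have hN : (0 : ℝ) < N := by exact_mod_cast h
    rw [abs_div, abs_of_pos hN, div_le_one hN]
    refine (Finset.abs_sum_le_sum_abs _ _).trans ?_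
    refine (Finset.sum_le_sum (fun i _ => abs_sp_mul i σ τ)).trans ?_
    simp

/-- the two-replica average of the overlap -/
lemma gib_ovl (H H' : Cfg N → ℝ) :
    gib β H (fun σ => gib β H' (fun τ => ovl σ τ)) =
      (∑ i, gib β H (sp i) * gib β H' (sp i)) / N := by
  have h1 : ∀ σ, gib β H' (fun τ => ovl σ τ) = ∑ i, (gib β H' (sp i) / N) * sp i σ := by
    intro σ
    have : (fun τ => ovl σ τ) = fun τ => ∑ i, (sp i σ / N) * sp i τ := by
      funext τ
      unfold ovl
      rw [Finset.sum_div]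
      exact Finset.sum_congr rfl (fun i _ => by ring)
    rw [this, gib_sum]
    refine Finset.sum_congr rfl (fun i _ => ?_)
    rw [gib_smul]
    ring
  simp only [h1]
  rw [gib_sum, Finset.sum_div]
  refine Finset.sum_congr rfl (fun i _ => ?_)
  rw [gib_smul]
  ring

/-- **second moment at least the square of the first moment** -/
lemma ER2_ge (hρ : Measurable ρ) {P : ℝ × ℝ × Bool → ℝ} (hP : Measurable P) {t : ℝ} (ht : 0 ≤ t)
    (m : ℝ) (hm : ∫ ω : E → ℝ × ℝ × Bool, (∑ i, gib β (Ham E ρ (fun e => (ω e).1)) (sp i) *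
      gib β (Ham E ρ (fun e => P (ω e))) (sp i)) / N ∂(Measure.pi (fun _ : E => law1 t)) = m) :
    m ^ 2 ≤ ER2 E ρ β t P := by
  have := law1_prob ht
  have hm1 : ∀ g : Cfg N → ℝ, Measurable (fun ω : E → ℝ × ℝ × Bool => gib β (Ham E ρ (fun e => (ω e).1)) g) :=
    fun g => gib_measurable hρ measurable_fst g
  have hm2 : ∀ g : Cfg N → ℝ, Measurable (fun ω : E → ℝ × ℝ × Bool => gib β (Ham E ρ (fun e => P (ω e))) g) :=
    fun g => gib_measurable hρ hP g
  have hint1 : Integrable (fun ω : E → ℝ × ℝ × Bool => (∑ i, gib β (Ham E ρ (fun e => (ω e).1)) (sp i) *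
      gib β (Ham E ρ (fun e => P (ω e))) (sp i)) / N) (Measure.pi (fun _ : E => law1 t)) := by
    refine Integrable.of_bound (C := 1) ?_ ?_
    · exact ((Finset.measurable_sum _ (fun i _ => (hm1 _).mul (hm2 _))).div_const _).aestronglyMeasurable
    · refine Filter.Eventually.of_forall (fun ω => ?_)
      rw [Real.norm_eq_abs, ← gib_ovl]
      exact gib_abs_le _ _ (fun σ => gib_abs_le _ _ (fun τ => abs_ovl σ τ))
  have hpt : ∀ ω : E → ℝ × ℝ × Bool,
      2 * m * ((∑ i, gib β (Ham E ρ (fun e => (ω e).1)) (sp i) *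
        gib β (Ham E ρ (fun e => P (ω e))) (sp i)) / N) - m ^ 2 ≤
      gib β (Ham E ρ (fun e => (ω e).1)) (fun σ =>
        gib β (Ham E ρ (fun e => P (ω e))) (fun τ => ovl σ τ ^ 2)) := by
    intro ω
    rw [← gib_ovl]
    have h1 : ∀ σ, 2 * m * gib β (Ham E ρ (fun e => P (ω e))) (fun τ => ovl σ τ) - m ^ 2 ≤
        gib β (Ham E ρ (fun e => P (ω e))) (fun τ => ovl σ τ ^ 2) := by
      intro σ
      have h2 := gib_mono β (Ham E ρ (fun e => P (ω e)))
        (f := fun τ => 2 * m * ovl σ τ + (-m ^ 2)) (g := fun τ => ovl σ τ ^ 2)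
        (fun τ => by nlinarith [sq_nonneg (ovl σ τ - m)])
      rw [gib_add β _ (fun τ => 2 * m * ovl σ τ) (fun _ => -m ^ 2), gib_smul, gib_const] at h2
      linarith
    have h3 := gib_mono β (Ham E ρ (fun e => (ω e).1)) h1
    have h4 : gib β (Ham E ρ (fun e => (ω e).1)) (fun σ =>
        2 * m * gib β (Ham E ρ (fun e => P (ω e))) (fun τ => ovl σ τ) - m ^ 2) =
        2 * m * gib β (Ham E ρ (fun e => (ω e).1)) (fun σ =>
          gib β (Ham E ρ (fun e => P (ω e))) (fun τ => ovl σ τ)) + (-m ^ 2) := by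
      rw [← gib_smul, ← gib_const β (Ham E ρ (fun e => (ω e).1)) (-m ^ 2), ← gib_add]
      congr 1
    rw [h4] at h3
    linarith
  have hint2 : Integrable (fun ω : E → ℝ × ℝ × Bool => gib β (Ham E ρ (fun e => (ω e).1)) (fun σ =>
        gib β (Ham E ρ (fun e => P (ω e))) (fun τ => ovl σ τ ^ 2))) (Measure.pi (fun _ : E => law1 t)) := by
    refine Integrable.of_bound (C := 1) ?_ ?_
    · refine Measurable.aestronglyMeasurable ?_
      have : (fun ω : E → ℝ × ℝ × Bool => gib β (Ham E ρ (fun e => (ω e).1)) (fun σ =>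
        gib β (Ham E ρ (fun e => P (ω e))) (fun τ => ovl σ τ ^ 2))) = fun ω =>
          ∑ σ, gib β (Ham E ρ (fun e => (ω e).1)) (fun σ' => if σ' = σ then 1 else 0) *
            gib β (Ham E ρ (fun e => P (ω e))) (fun τ => ovl σ τ ^ 2) := by
        funext ω
        have h5 : (fun σ => gib β (Ham E ρ (fun e => P (ω e))) (fun τ => ovl σ τ ^ 2)) = fun σ' =>
            ∑ σ, gib β (Ham E ρ (fun e => P (ω e))) (fun τ => ovl σ τ ^ 2) * (if σ' = σ then 1 else 0) := by
          funext σ'
          simp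
        rw [h5, gib_sum]
        refine Finset.sum_congr rfl (fun σ _ => ?_)
        rw [gib_smul]; ring
      rw [this]
      exact Finset.measurable_sum _ (fun σ _ => (hm1 _).mul (hm2 _))
    · refine Filter.Eventually.of_forall (fun ω => ?_)
      rw [Real.norm_eq_abs]
      refine gib_abs_le _ _ (fun σ => gib_abs_le _ _ (fun τ => ?_))
      rw [abs_of_nonneg (sq_nonneg _), ← sq_abs]
      have := abs_ovl σ τ
      have h0 := abs_nonneg (ovl σ τ)
      nlinarith
  have hfin := integral_mono ((hint1.const_mul (2 * m)).sub (integrable_const (m ^ 2))) hint2 hpt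
  rw [integral_sub' (hint1.const_mul _) (integrable_const _), integral_const_mul, hm] at hfin
  simp only [integral_const, probReal_univ, smul_eq_mul, one_mul] at hfin
  unfold ER2
  nlinarith

/-- product of three independent factors -/
lemma int3 {t : ℝ} (ht : 0 ≤ t) (q : ℝ × ℝ × Bool → ℝ) (e1 e2 e3 : E) (h12 : e1 ≠ e2) (h13 : e1 ≠ e3)
    (h23 : e2 ≠ e3) :
    ∫ ω : E → ℝ × ℝ × Bool, q (ω e1) * (q (ω e2) * q (ω e3)) ∂(Measure.pi (fun _ : E => law1 t)) =
      (∫ w, q w ∂(law1 t)) ^ 3 := by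
  classical
  have := law1_prob ht
  set s : Finset E := {e1, e2, e3} with hs
  have h := integral_fintype_prod_eq_prod (𝕜 := ℝ) (μ := fun _ : E => law1 t)
    (fun (e : E) (w : ℝ × ℝ × Bool) => if e ∈ s then q w else 1)
  have hl : ∀ ω : E → ℝ × ℝ × Bool, (∏ e : E, (if e ∈ s then q (ω e) else 1)) =
      q (ω e1) * (q (ω e2) * q (ω e3)) := by
    intro ω
    rw [Finset.prod_ite_mem, Finset.univ_inter, hs, Finset.prod_insert, Finset.prod_insert,
      Finset.prod_singleton]
    · simpa using h23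
    · simp [h12, h13]
  have hr : (∏ e : E, ∫ w, (if e ∈ s then q w else 1) ∂(law1 t)) = (∫ w, q w ∂(law1 t)) ^ 3 := by
    have h1 : ∀ e : E, ∫ w, (if e ∈ s then q w else 1) ∂(law1 t) =
        if e ∈ s then ∫ w, q w ∂(law1 t) else 1 := by
      intro e
      by_cases he : e ∈ s
      · simp [he]
      · simp [he]
    simp only [h1]
    rw [Finset.prod_ite_mem, Finset.univ_inter, hs, Finset.prod_insert, Finset.prod_insert,
      Finset.prod_singleton]
    · ring
    · simpa using h23
    · simp [h12, h13]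
  rw [hr] at h
  rw [← h]
  exact integral_congr_ae (Filter.Eventually.of_forall (fun ω => (hl ω).symm))

/-- **The disproof mechanism.**  With `c = E[f(J) f(J(t))] ≥ 0` one has
`E ⟨R²⟩_t ≥ (c³/7)²` for all `N ≥ 4`. -/
theorem ER2_lower (hρ : Measurable ρ) {P : ℝ × ℝ × Bool → ℝ} (hP : Measurable P) {t : ℝ} (ht : 0 ≤ t)
    (c : ℝ) (hc0 : 0 ≤ c) (hc : ∫ w, fm ρ β w.1 * fm ρ β (P w) ∂(law1 t) = c) (hN : 4 ≤ N) :
    (c ^ 3 / 7) ^ 2 ≤ ER2 (EN N) ρ β t P := by
  have := law1_prob ht
  have hNpos : (0 : ℝ) < N := by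
    have : 0 < N := by omega
    exact_mod_cast this
  -- the expectation of each term
  have hterm : ∀ i : Fin N, ∫ ω : (EN N) → ℝ × ℝ × Bool, gib β (Ham (EN N) ρ (fun e => (ω e).1)) (sp i) *
      gib β (Ham (EN N) ρ (fun e => P (ω e))) (sp i) ∂(Measure.pi (fun _ : EN N => law1 t)) =
      if BT N i.val then 0 else c ^ 3 := by
    intro i
    by_cases hi : BT N i.val
    · rw [if_pos hi]
      have : ∀ ω : (EN N) → ℝ × ℝ × Bool, gib β (Ham (EN N) ρ (fun e => (ω e).1)) (sp i) *
          gib β (Ham (EN N) ρ (fun e => P (ω e))) (sp i) = 0 := by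
        intro ω
        rw [mag_B ρ β _ i hi, zero_mul]
      simp [this]
    · rw [if_neg hi]
      have hi2 : i.val % 4 = 0 ∧ i.val + 3 < N := by
        unfold BT at hi; push Not at hi; exact hi
      set k : ℕ := i.val / 4 with hk
      have hik : i.val = 4 * k := by omega
      have hkN : 4 * k + 3 < N := by omega
      have hie : i = ⟨4 * k, by omega⟩ := Fin.ext hik
      have : ∀ ω : (EN N) → ℝ × ℝ × Bool, gib β (Ham (EN N) ρ (fun e => (ω e).1)) (sp i) *
          gib β (Ham (EN N) ρ (fun e => P (ω e))) (sp i) =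
          (fun w : ℝ × ℝ × Bool => fm ρ β w.1 * fm ρ β (P w)) (ω (ge1 k hkN)) *
          ((fun w : ℝ × ℝ × Bool => fm ρ β w.1 * fm ρ β (P w)) (ω (ge2 k hkN)) *
          (fun w : ℝ × ℝ × Bool => fm ρ β w.1 * fm ρ β (P w)) (ω (ge3 k hkN))) := by
        intro ω
        rw [hie, mag_A ρ β _ k hkN, mag_A ρ β _ k hkN]
        ring
      simp only [this]
      have h3 := int3 ht (fun w : ℝ × ℝ × Bool => fm ρ β w.1 * fm ρ β (P w)) (ge1 k hkN)
        (ge2 k hkN) (ge3 k hkN) (ge12 k hkN) (ge13 k hkN) (ge23 k hkN)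
      rw [hc] at h3
      exact h3
  have hm1 : ∀ g : Cfg N → ℝ, Measurable (fun ω : (EN N) → ℝ × ℝ × Bool => gib β (Ham (EN N) ρ (fun e => (ω e).1)) g) :=
    fun g => gib_measurable hρ measurable_fst g
  have hm2 : ∀ g : Cfg N → ℝ, Measurable (fun ω : (EN N) → ℝ × ℝ × Bool => gib β (Ham (EN N) ρ (fun e => P (ω e))) g) :=
    fun g => gib_measurable hρ hP g
  have hint : ∀ i : Fin N, Integrable (fun ω : (EN N) → ℝ × ℝ × Bool => gib β (Ham (EN N) ρ (fun e => (ω e).1)) (sp i) *
      gib β (Ham (EN N) ρ (fun e => P (ω e))) (sp i)) (Measure.pi (fun _ : EN N => law1 t)) := by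
    intro i
    refine Integrable.of_bound (C := 1) ((hm1 _).mul (hm2 _)).aestronglyMeasurable ?_
    refine Filter.Eventually.of_forall (fun ω => ?_)
    rw [Real.norm_eq_abs, abs_mul]
    have h1 : |gib β (Ham (EN N) ρ (fun e => (ω e).1)) (sp i)| ≤ 1 := gib_abs_le _ _ (fun σ => (abs_sp i σ).le)
    have h2 : |gib β (Ham (EN N) ρ (fun e => P (ω e))) (sp i)| ≤ 1 := gib_abs_le _ _ (fun σ => (abs_sp i σ).le)
    exact mul_le_one₀ h1 (abs_nonneg _) h2
  have hmean : ∫ ω : (EN N) → ℝ × ℝ × Bool, (∑ i, gib β (Ham (EN N) ρ (fun e => (ω e).1)) (sp i) *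
      gib β (Ham (EN N) ρ (fun e => P (ω e))) (sp i)) / N ∂(Measure.pi (fun _ : EN N => law1 t)) =
      (∑ i : Fin N, if BT N i.val then 0 else c ^ 3) / N := by
    rw [integral_div, integral_finsetSum _ (fun i _ => hint i)]
    simp only [hterm]
  have hfin := ER2_ge hρ hP ht _ hmean
  refine le_trans ?_ hfin
  have hc3 : 0 ≤ c ^ 3 := by positivity
  refine pow_le_pow_left₀ (by positivity) ?_ 2
  rw [le_div_iff₀ hNpos]
  -- count
  have hcount : ((N / 4 : ℕ) : ℝ) * c ^ 3 ≤ ∑ i : Fin N, (if BT N i.val then 0 else c ^ 3) := by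
    let f : Fin (N / 4) → Fin N := fun k => ⟨4 * k.val, by have := k.2; omega⟩
    have hf : Function.Injective f := by
      intro a b h
      have := congrArg Fin.val h
      simp only [f] at this
      exact Fin.ext (by omega)
    have h1 : ∑ i ∈ Finset.univ.map ⟨f, hf⟩, (if BT N i.val then 0 else c ^ 3) ≤
        ∑ i : Fin N, (if BT N i.val then 0 else c ^ 3) := by
      refine Finset.sum_le_sum_of_subset_of_nonneg (Finset.subset_univ _) (fun i _ _ => ?_)
      split_ifs
      · exact le_rfl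
      · exact hc3
    refine le_trans (le_of_eq ?_) h1
    rw [Finset.sum_map]
    have h2 : ∀ k : Fin (N / 4), (if BT N ((⟨f, hf⟩ : Fin (N / 4) ↪ Fin N) k).val then 0 else c ^ 3) = c ^ 3 := by
      intro k
      rw [if_neg]
      have := k.2
      simp only [Function.Embedding.coeFn_mk, f]
      unfold BT; push Not; omega
    simp only [h2]
    simp
  refine le_trans ?_ hcount
  have h7 : (N : ℝ) ≤ 7 * ((N / 4 : ℕ) : ℝ) := by
    have : N ≤ 7 * (N / 4) := by omega
    exact_mod_cast this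
  nlinarith

end Pool.Agent.Q216.HG
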